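import Pool.Agent.H29.DW.Targets
import Pool.Agent.H87.HK.YC
import Pool.Agent.H41.HK.JA

/-!
# (WL) the lower bound for the Mellin transform
-/

set_option autoImplicit false

open NumberField NumberField.InfinitePlace NumberField.Units
  NumberField.Units.dirichletUnitTheorem MeasureTheory Set Filter Complex
open scoped nonZeroDivisors ENNReal

namespace Pool.Agent.H46.DW

open Pool.Agent.H25.HK Pool.Agent.H23.LB Pool.Agent.H23.LC Pool.Agent.H29.DW

section

variable {K : Type} [Field K] [NumberField K]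

/-- the local integrand -/
noncomputable def lin (c : ℂ) (H : ℝ) (r : Bool) (k : ℤ) (y θ : ℝ) : ℂ :=
  aq r θ ^ (-k) * tw1 c H (fun x => (b0 x : ℂ)) (((Real.exp (y / 2) : ℝ) : ℂ) * aq r θ)

omit [NumberField K] in
lemma an_eq_aq (v : InfinitePlace K) (θ : ℝ) : an v θ = aq (rv v) θ := by
  classical
  unfold an aq rv
  by_cases h : v.IsReal
  · simp [h]
  · simp [h]

omit [NumberField K] in
lemma mult_eq_dg (v : InfinitePlace K) : v.mult = dg (rv v) := by
  classical
  unfold dg rv mult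
  by_cases h : v.IsReal
  · simp [h]
  · simp [h]

omit [NumberField K] in
lemma par_cpar (k : InfinitePlace K → ℤ) (ν : InfinitePlace K → ℝ) (t : ℝ) (v : InfinitePlace K) :
    Par (rv v) (cpar k ν t v) (Hpar (cpar k ν t) v) := by
  classical
  have h0 : (0 : ℝ) ≤ max 1 ‖cpar k ν t v‖ := zero_le_one.trans (le_max_left _ _)
  refine ⟨?_, ?_, ?_⟩
  · unfold Hpar
    exact Real.one_le_rpow (le_max_left _ _) (by norm_num)
  · unfold Hpar
    rw [← Real.rpow_natCast, ← Real.rpow_mul h0]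
    norm_num
  · intro hr
    have h1 : v.IsReal := by
      unfold rv at hr
      exact of_decide_eq_true hr
    unfold cpar
    rw [if_pos h1]
    exact Complex.ofReal_im _

omit [NumberField K] in
lemma cpar_eq (k : InfinitePlace K → ℤ) (ν : InfinitePlace K → ℝ) (t : ℝ) (v : InfinitePlace K) :
    cpar k ν t v = if rv v then ((t - ν v : ℝ) : ℂ) else
      ((2 * (t - ν v) : ℝ) : ℂ) + (k v : ℂ) * I := by
  classical
  unfold cpar rv
  by_cases h : v.IsReal
  · simp [h]
  · simp [h]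

/-- the integral over the angles is a product -/
lemma inner_eq (cp : InfinitePlace K → ℂ) (H : InfinitePlace K → ℝ) (k : InfinitePlace K → ℤ)
    (y : InfinitePlace K → ℝ) :
    ∫ θ in An K, ek k θ * Wg cp H pb (1 : K) y (om true θ) =
      ∏ v, ∫ θ in Icc (0 : ℝ) (2 * Real.pi), lin (cp v) (H v) (rv v) (k v) (y v) θ := by
  have h1 : ∀ θ : InfinitePlace K → ℝ, ek k θ * Wg cp H pb (1 : K) y (om true θ) =
      ∏ v, lin (cp v) (H v) (rv v) (k v) (y v) (θ v) := by
    intro θ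
    unfold ek Wg
    rw [← Finset.prod_mul_distrib]
    refine Finset.prod_congr rfl fun v _ => ?_
    have h2 : wv v (1 : K) y (om true θ) =
        ((Real.exp (y v / 2) : ℝ) : ℂ) * aq (rv v) (θ v) := by
      unfold wv om
      rw [map_one, one_mul, if_pos rfl, an_eq_aq]
    rw [h2, an_eq_aq]
    rfl
  simp only [h1]
  have h3 : (volume : Measure (InfinitePlace K → ℝ)).restrict (An K) =
      Measure.pi fun _ => (volume : Measure ℝ).restrict (Icc (0 : ℝ) (2 * Real.pi)) := by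
    unfold An
    rw [volume_pi, Measure.restrict_pi_pi]
  rw [h3, integral_fintype_prod_eq_prod]

/-- the integrand as a product -/
lemma integrand_eq (hPU : T_PU) (k : InfinitePlace K → ℤ) (ν : InfinitePlace K → ℝ) (t : ℝ)
    (hν : ∑ v, (v.mult : ℝ) * ν v = 0) (cp : InfinitePlace K → ℂ) (H : InfinitePlace K → ℝ)
    (τ : ℝ) (z : logSpace K) :
    ec K ν z * cexp (t * τ * I) * ∫ θ in An K, ek k θ * Wg cp H pb (1 : K) (yc K τ z) (om true θ) =
      ∏ v, (cexp ((dg (rv v) * (t - ν v) * yc K τ z v / 2 : ℝ) * I) *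
        ∫ θ in Icc (0 : ℝ) (2 * Real.pi), lin (cp v) (H v) (rv v) (k v) (yc K τ z v) θ) := by
  rw [inner_eq, Finset.prod_mul_distrib]
  congr 1
  obtain ⟨hsum, -⟩ := Pool.Agent.H87.HK.yc_main K
  obtain ⟨-, hpr, -⟩ := hPU K
  unfold ec
  rw [hpr ν hν τ z, ← Complex.exp_add, ← Complex.exp_sum]
  congr 1
  have h1 : τ = (∑ v, (v.mult : ℝ) * yc K τ z v) / 2 := by
    rw [hsum]
    ring
  have h2 : (-(∑ v, (v.mult : ℝ) * ν v * yc K τ z v) / 2 + t * τ : ℝ) =
      ∑ v, (dg (rv v) * (t - ν v) * yc K τ z v / 2 : ℝ) := by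
    have h3 : (-(∑ v, (v.mult : ℝ) * ν v * yc K τ z v) / 2 + t * τ : ℝ) =
        -(∑ v, (v.mult : ℝ) * ν v * yc K τ z v) / 2 +
          t * ((∑ v, (v.mult : ℝ) * yc K τ z v) / 2) := by rw [← h1]
    rw [h3, ← Finset.sum_neg_distrib, Finset.sum_div, Finset.sum_div, Finset.mul_sum,
      ← Finset.sum_add_distrib]
    refine Finset.sum_congr rfl fun v _ => ?_
    rw [← mult_eq_dg]
    ring
  rw [← Finset.sum_mul, ← Complex.ofReal_sum, ← h2]
  push_cast
  ring

end

/-- (WL) the lower bound for the Mellin transform. -/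
theorem pf_WL (hML : V_ML) (hPU : T_PU) : V_WL := by
  classical
  intro n hn
  obtain ⟨c₀, hc₀, hml⟩ := hML
  refine ⟨(2 ^ n)⁻¹ * (min c₀ 1) ^ n, by positivity, ?_⟩
  intro K _ _ hK k ν t hν
  have hml' : ∀ v : InfinitePlace K,
      Integrable (fun y : ℝ => cexp ((dg (rv v) * (t - ν v) * y / 2 : ℝ) * I) *
        ∫ θ in Icc (0 : ℝ) (2 * Real.pi),
          lin (cpar k ν t v) (Hpar (cpar k ν t) v) (rv v) (k v) y θ) ∧
      c₀ * ((Hpar (cpar k ν t) v) ^ v.mult)⁻¹ ≤
        ‖∫ y : ℝ, cexp ((dg (rv v) * (t - ν v) * y / 2 : ℝ) * I) *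
        ∫ θ in Icc (0 : ℝ) (2 * Real.pi),
          lin (cpar k ν t v) (Hpar (cpar k ν t) v) (rv v) (k v) y θ‖ := by
    intro v
    have h1 := hml (rv v) (cpar k ν t v) (Hpar (cpar k ν t) v) (par_cpar k ν t v) (k v)
      (t - ν v) (cpar_eq k ν t v)
    have h2 : ∀ y : ℝ, (∫ θ in Icc (0 : ℝ) (2 * Real.pi), aq (rv v) θ ^ (-k v) *
        cexp ((dg (rv v) * (t - ν v) * y / 2 : ℝ) * I) *
          tw1 (cpar k ν t v) (Hpar (cpar k ν t) v) (fun x => (b0 x : ℂ))
            (((Real.exp (y / 2) : ℝ) : ℂ) * aq (rv v) θ)) =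
        cexp ((dg (rv v) * (t - ν v) * y / 2 : ℝ) * I) *
        ∫ θ in Icc (0 : ℝ) (2 * Real.pi),
          lin (cpar k ν t v) (Hpar (cpar k ν t) v) (rv v) (k v) y θ := by
      intro y
      rw [← integral_const_mul]
      congr 1
      funext θ
      unfold lin
      ring
    simp only [h2] at h1
    refine ⟨h1.1, le_trans (le_of_eq ?_) h1.2⟩
    have h3 : (0 : ℝ) ≤ Hpar (cpar k ν t) v := zero_le_one.trans (par_cpar k ν t v).one_le
    rw [Real.rpow_neg h3, Real.rpow_natCast, ← mult_eq_dg]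
  have hg := (Integrable.fintype_prod_dep (μ := fun _ : InfinitePlace K => (volume : Measure ℝ))
    fun v => (hml' v).1)
  rw [← volume_pi] at hg
  have hja := (Pool.Agent.H41.HK.ja K _ hg).2
  have hWH : WH K (cpar k ν t) (Hpar (cpar k ν t)) k ν t =
      ∫ p : ℝ × logSpace K, ∏ v, (cexp ((dg (rv v) * (t - ν v) * yc K p.1 p.2 v / 2 : ℝ) * I) *
        ∫ θ in Icc (0 : ℝ) (2 * Real.pi),
          lin (cpar k ν t v) (Hpar (cpar k ν t) v) (rv v) (k v) (yc K p.1 p.2 v) θ) := by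
    unfold WH
    simp only [integrand_eq hPU k ν t hν]
    exact (integral_prod_swap (μ := (volume : Measure (logSpace K))) (ν := (volume : Measure ℝ))
      (fun u : logSpace K × ℝ => ∏ v, (cexp ((dg (rv v) * (t - ν v) * yc K u.2 u.1 v / 2 : ℝ) * I) *
        ∫ θ in Icc (0 : ℝ) (2 * Real.pi),
          lin (cpar k ν t v) (Hpar (cpar k ν t) v) (rv v) (k v) (yc K u.2 u.1 v) θ))).symm
  have hpr := integral_fintype_prod_volume_eq_prod
    (fun (v : InfinitePlace K) (y : ℝ) => cexp ((dg (rv v) * (t - ν v) * y / 2 : ℝ) * I) *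
        ∫ θ in Icc (0 : ℝ) (2 * Real.pi),
          lin (cpar k ν t v) (Hpar (cpar k ν t) v) (rv v) (k v) y θ)
  rw [hWH, hja, hpr, norm_mul, norm_prod, norm_inv, norm_pow]
  have hcard : (Finset.univ : Finset (InfinitePlace K)).card ≤ n := by
    rw [← hK, ← sum_mult_eq (K := K), Finset.card_eq_sum_ones]
    exact Finset.sum_le_sum fun v _ => Nat.succ_le_of_lt mult_pos
  have hr1 : nrRealPlaces K ≤ n := by
    refine le_trans ?_ hcard
    unfold nrRealPlaces
    exact Fintype.card_subtype_le _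
  have h2 : ‖(2 : ℂ)‖ = 2 := by simp
  rw [h2]
  have h3 : ((2 : ℝ) ^ n)⁻¹ ≤ (2 ^ nrRealPlaces K)⁻¹ := by
    apply inv_anti₀ (by positivity)
    exact pow_le_pow_right₀ (by norm_num) hr1
  have hmin : (0 : ℝ) < min c₀ 1 := lt_min hc₀ one_pos
  have h4 : (min c₀ 1) ^ n * (HH (Hpar (cpar k ν t)))⁻¹ ≤
      ∏ v : InfinitePlace K, (c₀ * ((Hpar (cpar k ν t) v) ^ v.mult)⁻¹) := by
    rw [Finset.prod_mul_distrib, Finset.prod_const, Finset.prod_inv_distrib]
    have h5 : 0 ≤ (HH (Hpar (cpar k ν t)))⁻¹ := by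
      apply inv_nonneg.2
      apply Finset.prod_nonneg
      intro v _
      exact pow_nonneg (zero_le_one.trans (par_cpar k ν t v).one_le) _
    refine mul_le_mul_of_nonneg_right ?_ h5
    calc (min c₀ 1) ^ n ≤ (min c₀ 1) ^ (Finset.univ : Finset (InfinitePlace K)).card :=
          pow_le_pow_of_le_one hmin.le (min_le_right _ _) hcard
      _ ≤ c₀ ^ (Finset.univ : Finset (InfinitePlace K)).card :=
          pow_le_pow_left₀ hmin.le (min_le_left _ _) _
  have h6 : ∏ v : InfinitePlace K, (c₀ * ((Hpar (cpar k ν t) v) ^ v.mult)⁻¹) ≤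
      ∏ v : InfinitePlace K, ‖∫ y : ℝ, cexp ((dg (rv v) * (t - ν v) * y / 2 : ℝ) * I) *
        ∫ θ in Icc (0 : ℝ) (2 * Real.pi),
          lin (cpar k ν t v) (Hpar (cpar k ν t) v) (rv v) (k v) y θ‖ := by
    refine Finset.prod_le_prod (fun v _ => ?_) fun v _ => (hml' v).2
    exact mul_nonneg hc₀.le (inv_nonneg.2
      (pow_nonneg (zero_le_one.trans (par_cpar k ν t v).one_le) _))
  have h7 := h4.trans h6
  rw [mul_assoc]
  refine mul_le_mul h3 h7 ?_ (by positivity)
  exact mul_nonneg (by positivity) (inv_nonneg.2 (Finset.prod_nonneg fun v _ =>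
    pow_nonneg (zero_le_one.trans (par_cpar k ν t v).one_le) _))

end Pool.Agent.H46.DW
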